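import Pool.Agent.Helper64.SPX.Spec2

/-!
# Spectral products: parts V3 and V4 (facet vectors generate the lattice; Voronoi cells tile)
-/

set_option autoImplicit false

open MeasureTheory Filter Topology Set
open scoped InnerProductSpace ENNReal

namespace Pool.Agent.Helper85.SPX.V34

open Pool.Agent.Helper64.SPX

section

variable {ι : Type} [Fintype ι]

theorem lat_eq (b : Module.Basis ι ℝ (E ι)) :
    lat b = (Submodule.span ℤ (Set.range b) : Set (E ι)) := by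
  ext x
  rw [SetLike.mem_coe, Submodule.mem_span_range_iff_exists_fun]
  constructor
  · rintro ⟨c, hc⟩
    refine ⟨c, ?_⟩
    rw [hc]
    exact Finset.sum_congr rfl fun i _ => (Int.cast_smul_eq_zsmul ℝ (c i) (b i)).symm
  · rintro ⟨c, hc⟩
    refine ⟨c, ?_⟩
    rw [← hc]
    exact Finset.sum_congr rfl fun i _ => (Int.cast_smul_eq_zsmul ℝ (c i) (b i)).symm

theorem lat_sub (b : Module.Basis ι ℝ (E ι)) {x y : E ι} (hx : x ∈ lat b) (hy : y ∈ lat b) :
    x - y ∈ lat b := by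
  rw [lat_eq] at *
  exact Submodule.sub_mem _ hx hy

theorem lat_add (b : Module.Basis ι ℝ (E ι)) {x y : E ι} (hx : x ∈ lat b) (hy : y ∈ lat b) :
    x + y ∈ lat b := by
  rw [lat_eq] at *
  exact Submodule.add_mem _ hx hy

theorem lat_zero (b : Module.Basis ι ℝ (E ι)) : (0 : E ι) ∈ lat b := by
  rw [lat_eq]
  exact Submodule.zero_mem _

theorem lat_finite (b : Module.Basis ι ℝ (E ι)) (c : E ι) (R : ℝ) :
    {l | l ∈ lat b ∧ ‖c - l‖ ≤ R}.Finite := by
  have h := ZSpan.setFinite_inter b (s := Metric.closedBall c R) Metric.isBounded_closedBall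
  refine h.subset ?_
  rintro l ⟨hl, hR⟩
  refine ⟨?_, ?_⟩
  · rw [Metric.mem_closedBall, dist_comm, dist_eq_norm]; exact hR
  · rw [lat_eq] at hl; exact hl

/-- a nearest lattice point -/
theorem exists_nearest (b : Module.Basis ι ℝ (E ι)) (S : Set (E ι)) (hS : S ⊆ lat b)
    (hne : S.Nonempty) (x : E ι) : ∃ l ∈ S, ∀ l' ∈ S, ‖x - l‖ ≤ ‖x - l'‖ := by
  obtain ⟨l0, hl0⟩ := hne
  have hfin : {l | l ∈ S ∧ ‖x - l‖ ≤ ‖x - l0‖}.Finite :=
    (lat_finite b x ‖x - l0‖).subset fun l hl => ⟨hS hl.1, hl.2⟩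
  obtain ⟨l, hl, hmin⟩ := Set.exists_min_image _ (fun l => ‖x - l‖) hfin ⟨l0, hl0, le_rfl⟩
  refine ⟨l, hl.1, fun l' hl' => ?_⟩
  by_cases h : ‖x - l'‖ ≤ ‖x - l0‖
  · exact hmin l' ⟨hl', h⟩
  · exact hl.2.trans (le_of_lt (not_le.1 h))

theorem mainV3 : S_V3 := by
  intro ι _ b Q hQ
  by_contra hcon
  push Not at hcon
  obtain ⟨x0, hx0, hx0'⟩ := hcon
  obtain ⟨x, hx, hmin⟩ := exists_nearest b
    {x | x ∈ lat b ∧ x ∉ AddSubmonoid.closure (Set.range Q.u)} (fun x hx => hx.1)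
    ⟨x0, hx0, hx0'⟩ 0
  have hxne : x ≠ 0 := by
    rintro rfl
    exact hx.2 (AddSubmonoid.zero_mem _)
  have hxv : x ∉ vor b := by
    intro h
    have := h x hx.1
    rw [sub_self, norm_zero] at this
    exact hxne (norm_le_zero_iff.1 this)
  rw [← hQ.1] at hxv
  have : ∃ i, Q.h i < ⟪Q.u i, x⟫_ℝ := by
    by_contra h
    push Not at h
    exact hxv h
  obtain ⟨i, hi⟩ := this
  obtain ⟨hul, -, huh, -⟩ := hQ.2.2.2.1 i
  have hlt : ‖x - Q.u i‖ < ‖x‖ := by
    rw [← sq_lt_sq₀ (norm_nonneg _) (norm_nonneg _), norm_sub_sq_real, real_inner_comm]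
    rw [huh] at hi
    linarith
  have hmem : x - Q.u i ∈ AddSubmonoid.closure (Set.range Q.u) := by
    by_contra h
    have := hmin (x - Q.u i) ⟨lat_sub b hx.1 hul, h⟩
    rw [zero_sub, zero_sub, norm_neg, norm_neg] at this
    linarith
  apply hx.2
  have h2 := AddSubmonoid.add_mem _ hmem (AddSubmonoid.subset_closure (Set.mem_range_self i))
  rwa [sub_add_cancel] at h2

theorem mainV4 : S_V4 := by
  intro ι _ b
  have hinj : ∀ c c' : ι → ℤ, ∑ i, (c i : ℝ) • b i = ∑ i, (c' i : ℝ) • b i → c = c' := by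
    intro c c' h
    have h1 : ∑ i, ((c i : ℝ) - (c' i : ℝ)) • b i = 0 := by
      simp_rw [sub_smul]
      rw [Finset.sum_sub_distrib, h, sub_self]
    have h2 := Fintype.linearIndependent_iff.1 b.linearIndependent _ h1
    funext i
    have := h2 i
    exact_mod_cast sub_eq_zero.1 this
  have hnull : ∀ c c' : ι → ℤ, c ≠ c' →
      ∀ᵐ x : E ι, ‖x - ∑ i, (c i : ℝ) • b i‖ ≠ ‖x - ∑ i, (c' i : ℝ) • b i‖ := by
    intro c c' hcc
    have hne : (∑ i, (c i : ℝ) • b i) ≠ ∑ i, (c' i : ℝ) • b i := fun h => hcc (hinj c c' h)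
    have h0 := Measure.addHaar_affineSubspace (volume : Measure (E ι))
      (AffineSubspace.perpBisector (∑ i, (c i : ℝ) • b i) (∑ i, (c' i : ℝ) • b i))
      (by rw [Ne, AffineSubspace.perpBisector_eq_top]; exact hne)
    rw [ae_iff]
    refine measure_mono_null ?_ h0
    intro x hx
    rw [Set.mem_setOf_eq, not_not] at hx
    rw [SetLike.mem_coe, AffineSubspace.mem_perpBisector_iff_dist_eq, dist_eq_norm, dist_eq_norm]
    exact hx
  have hall : ∀ᵐ x : E ι, ∀ c c' : ι → ℤ, c ≠ c' →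
      ‖x - ∑ i, (c i : ℝ) • b i‖ ≠ ‖x - ∑ i, (c' i : ℝ) • b i‖ := by
    rw [ae_all_iff]; intro c
    rw [ae_all_iff]; intro c'
    by_cases h : c = c'
    · exact Filter.Eventually.of_forall fun x h' => absurd h h'
    · filter_upwards [hnull c c' h] with x hx _ using hx
  filter_upwards [hall] with x hx
  obtain ⟨l, hl, hmin⟩ := exists_nearest b (lat b) subset_rfl ⟨0, lat_zero b⟩ x
  obtain ⟨c, rfl⟩ := hl
  refine ⟨c, ?_, ?_⟩
  · intro l' hl'
    have := hmin (∑ i, (c i : ℝ) • b i + l') (lat_add b ⟨c, rfl⟩ hl')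
    rwa [← sub_sub] at this
  · intro c' hc'
    by_contra hne
    apply hx c c' (Ne.symm hne)
    apply le_antisymm
    · exact hmin _ ⟨c', rfl⟩
    · have := hc' ((∑ i, (c i : ℝ) • b i) - ∑ i, (c' i : ℝ) • b i)
        (lat_sub b ⟨c, rfl⟩ ⟨c', rfl⟩)
      have h3 : x - ∑ i, (c' i : ℝ) • b i - ((∑ i, (c i : ℝ) • b i) - ∑ i, (c' i : ℝ) • b i) =
          x - ∑ i, (c i : ℝ) • b i := by abel
      rwa [h3] at this

end

end Pool.Agent.Helper85.SPX.V34
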